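import Pool.Agent.BXS.Stmts

/-!
# BXS, row GRD: the gradient in coordinates
-/

set_option autoImplicit false

namespace Pool.Agent.BXS.H63

open Set Filter Topology MeasureTheory InnerProductSpace Laplacian
open scoped InnerProductSpace ENNReal
open Pool.Agent.BE01F Pool.Agent.BEC Pool.Agent.BXS

theorem grd_dx (N : ℕ) (F : (Fin N → ℝ) → ℝ) (y : Fin N → ℝ) (hF : DifferentiableAt ℝ F y)
    (i : Fin N) : Pool.Agent.BOX.dx i F y = fderiv ℝ F y (Pi.single i (1 : ℝ)) := by
  unfold Pool.Agent.BOX.dx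
  have h1 : HasDerivAt (fun s : ℝ => y + s • (Pi.single i (1 : ℝ) : Fin N → ℝ))
      ((1 : ℝ) • (Pi.single i (1 : ℝ) : Fin N → ℝ)) 0 :=
    ((hasDerivAt_id (0 : ℝ)).smul_const _).const_add y
  have h2 : HasFDerivAt F (fderiv ℝ F y) (y + (0 : ℝ) • (Pi.single i (1 : ℝ) : Fin N → ℝ)) := by
    rw [zero_smul, add_zero]
    exact hF.hasFDerivAt
  have h3 := h2.comp_hasDerivAt (0 : ℝ) h1
  rw [one_smul] at h3
  exact h3.deriv

theorem grd : GrdStmt := by
  intro N F x hF
  let L : E N →L[ℝ] (Fin N → ℝ) :=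
    ((PiLp.continuousLinearEquiv 2 ℝ (fun _ : Fin N => ℝ)) : E N →L[ℝ] (Fin N → ℝ))
  have hL : ∀ y : E N, L y = WithLp.ofLp y := fun y => rfl
  have hG : HasFDerivAt (fun y : E N => F (WithLp.ofLp y))
      ((fderiv ℝ F (WithLp.ofLp x)).comp L) x := by
    have h1 : HasFDerivAt F (fderiv ℝ F (WithLp.ofLp x)) (L x) := hF.hasFDerivAt
    exact h1.comp x L.hasFDerivAt
  have hi : ∀ i : Fin N, (gradient (fun y : E N => F (WithLp.ofLp y)) x) i =
      Pool.Agent.BOX.dx i F (WithLp.ofLp x) := by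
    intro i
    rw [grd_dx N F _ hF i]
    have h2 : inner ℝ (gradient (fun y : E N => F (WithLp.ofLp y)) x)
        (EuclideanSpace.single i (1 : ℝ)) =
        fderiv ℝ (fun y : E N => F (WithLp.ofLp y)) x (EuclideanSpace.single i (1 : ℝ)) := by
      unfold gradient
      exact InnerProductSpace.toDual_symm_apply
    rw [hG.fderiv] at h2
    have h3 : inner ℝ (gradient (fun y : E N => F (WithLp.ofLp y)) x)
        (EuclideanSpace.single i (1 : ℝ)) =
        (gradient (fun y : E N => F (WithLp.ofLp y)) x) i := by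
      rw [EuclideanSpace.inner_single_right]
      simp
    rw [← h3, h2]
    show fderiv ℝ F (WithLp.ofLp x) (L (EuclideanSpace.single i (1 : ℝ))) = _
    rw [hL]
    congr 1
  rw [EuclideanSpace.real_norm_sq_eq]
  exact Finset.sum_congr rfl fun i _ => by rw [hi i]

end Pool.Agent.BXS.H63
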